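import Pool.Agent.U555.GS.Defs

set_option autoImplicit false

open Set Topology Filter Metric TopologicalSpace

namespace Pool.Agent.U555.GS

/-! ### The Fréchet spaces `Hol V` -/

lemma isClosed_Hol (V : Opens ℂ) : IsClosed (Hol V : Set C(V, ℂ)) := by
  have : LocallyCompactSpace V := V.isOpen.locallyCompactSpace
  refine isClosed_of_closure_subset fun f hf => ?_
  obtain ⟨F, hF, hlim⟩ := mem_closure_iff_seq_limit.1 hf
  refine ⟨ext0 V f, ?_, fun z => (ext0_of_mem _ z.2).symm⟩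
  have hd : ∀ n, DifferentiableOn ℂ (ext0 V (F n)) V := fun n =>
    ext0_differentiableOn ⟨F n, hF n⟩
  refine TendstoLocallyUniformlyOn.differentiableOn (φ := atTop) (F := fun n => ext0 V (F n)) ?_
    (Eventually.of_forall hd) V.isOpen
  rw [ContinuousMap.tendsto_iff_tendstoLocallyUniformly] at hlim
  rw [tendstoLocallyUniformlyOn_iff_tendstoLocallyUniformly_comp_coe]
  have e : ∀ g : C(V, ℂ), ext0 V g ∘ (Subtype.val : ↥(V : Set ℂ) → ℂ) = g := fun g => by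
    funext z
    exact ext0_of_mem _ z.2
  have h1 : (fun n => ext0 V (F n) ∘ (Subtype.val : ↥(V : Set ℂ) → ℂ)) = fun n => (F n : V → ℂ) :=
    funext fun n => e (F n)
  have h2 : ext0 V f ∘ (Subtype.val : ↥(V : Set ℂ) → ℂ) = f := e f
  have h3 := hlim
  rw [← h2] at h3
  have h4 : (fun n a => (F n) a) = (fun n => ext0 V (F n) ∘ (Subtype.val : ↥(V : Set ℂ) → ℂ)) :=
    h1.symm
  rw [h4] at h3
  exact h3

instance (V : Opens ℂ) : BaireSpace (Hol V) := by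
  have : LocallyCompactSpace V := V.isOpen.locallyCompactSpace
  have : CompleteSpace (Hol V) := (isClosed_Hol V).completeSpace_coe
  have : (uniformity (Hol V)).IsCountablyGenerated := by
    rw [uniformity_subtype]
    infer_instance
  infer_instance

lemma nhds_zero_Hol {V : Opens ℂ} {U : Set (Hol V)} (hU : U ∈ 𝓝 (0 : Hol V)) :
    ∃ K : Set ℂ, IsCompact K ∧ K ⊆ V ∧ ∃ ε : ℝ, 0 < ε ∧
      ∀ f : Hol V, (∀ z ∈ K, ‖ext0 V (f : C(V, ℂ)) z‖ ≤ ε) → f ∈ U := by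
  rw [nhds_subtype, mem_comap] at hU
  obtain ⟨U', hU', hsub⟩ := hU
  obtain ⟨W, hW, hWU⟩ := UniformSpace.mem_nhds_iff.1 hU'
  obtain ⟨K, X, hK, hX, hKX⟩ := (ContinuousMap.mem_compactConvergence_entourage_iff W).1 hW
  obtain ⟨ε, hε, hεX⟩ := Metric.mem_uniformity_dist.1 hX
  refine ⟨(↑) '' K, hK.image continuous_subtype_val, ?_, ε / 2, by positivity, fun f hf => ?_⟩
  · rintro _ ⟨z, -, rfl⟩
    exact z.2
  · apply hsub
    apply hWU
    apply hKX
    intro z hz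
    apply hεX
    have h1 := hf z ⟨z, hz, rfl⟩
    rw [ext0_of_mem _ z.2] at h1
    show dist (((0 : Hol V) : C(V, ℂ)) z) ((f : C(V, ℂ)) z) < ε
    rw [dist_comm, dist_eq_norm]
    have h3 : ((0 : Hol V) : C(V, ℂ)) z = 0 := rfl
    rw [h3, sub_zero]
    exact lt_of_le_of_lt h1 (by linarith)

/-! ### Representatives of germs -/

section rep

variable {E : Set ℂ}

/-- the underlying germ -/
def toG (γ : OGerm E) : Germ (𝓝ˢ E) ℂ := Subtype.val (p := (· ∈ germSpace E)) γ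

lemma toG_add (γ₁ γ₂ : OGerm E) : toG (γ₁ + γ₂) = toG γ₁ + toG γ₂ := rfl

lemma toG_smul (c : ℂ) (γ : OGerm E) : toG (c • γ) = c • toG γ := rfl

lemma toG_inj {γ₁ γ₂ : OGerm E} (h : toG γ₁ = toG γ₂) : γ₁ = γ₂ := Subtype.ext h

lemma toG_toGerm (V : Opens ℂ) (hV : E ⊆ V) (f : Hol V) :
    toG (toGerm V hV f) = (ext0 V (f : C(V, ℂ)) : Germ (𝓝ˢ E) ℂ) := rfl

lemma exists_rep (γ : OGerm E) : ∃ g : ℂ → ℂ, (∃ V : Opens ℂ, E ⊆ V ∧ DifferentiableOn ℂ g V) ∧
    toG γ = ↑g := by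
  obtain ⟨V, g, h1, h2, h3⟩ := γ.2
  exact ⟨g, ⟨V, h1, h2⟩, h3⟩

/-- a representative -/
noncomputable def rep (γ : OGerm E) : ℂ → ℂ := (exists_rep γ).choose

lemma rep_diff (γ : OGerm E) : ∃ V : Opens ℂ, E ⊆ V ∧ DifferentiableOn ℂ (rep γ) V :=
  (exists_rep γ).choose_spec.1

lemma toG_eq_rep (γ : OGerm E) : toG γ = ↑(rep γ) := (exists_rep γ).choose_spec.2

lemma rep_eventuallyEq {γ : OGerm E} {g : ℂ → ℂ} (h : toG γ = ↑g) : rep γ =ᶠ[𝓝ˢ E] g :=
  Germ.coe_eq.1 ((toG_eq_rep γ).symm.trans h)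

lemma rep_eventuallyEq_nhds {γ : OGerm E} {g : ℂ → ℂ} (h : toG γ = ↑g) {z : ℂ} (hz : z ∈ E) :
    rep γ =ᶠ[𝓝 z] g :=
  (rep_eventuallyEq h).filter_mono (nhds_le_nhdsSet hz)

lemma rep_eq {γ : OGerm E} {g : ℂ → ℂ} (h : toG γ = ↑g) {z : ℂ} (hz : z ∈ E) :
    rep γ z = g z := (rep_eventuallyEq_nhds h hz).eq_of_nhds

lemma rep_add (γ₁ γ₂ : OGerm E) {z : ℂ} (hz : z ∈ E) :
    rep (γ₁ + γ₂) =ᶠ[𝓝 z] rep γ₁ + rep γ₂ :=
  rep_eventuallyEq_nhds (by rw [toG_add, toG_eq_rep γ₁, toG_eq_rep γ₂]; rfl) hz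

lemma rep_smul (c : ℂ) (γ : OGerm E) {z : ℂ} (hz : z ∈ E) :
    rep (c • γ) =ᶠ[𝓝 z] c • rep γ :=
  rep_eventuallyEq_nhds (by rw [toG_smul, toG_eq_rep γ]; rfl) hz

lemma rep_toGerm (V : Opens ℂ) (hV : E ⊆ V) (f : Hol V) {z : ℂ} (hz : z ∈ E) :
    rep (toGerm V hV f) =ᶠ[𝓝 z] ext0 V (f : C(V, ℂ)) :=
  rep_eventuallyEq_nhds (toG_toGerm V hV f) hz

/-- restriction to compact subsets -/
noncomputable def resK (K : Set ℂ) (hK : K ⊆ E) : OGerm E →ₗ[ℂ] C(K, ℂ) where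
  toFun γ := ⟨fun z => rep γ z, by
    obtain ⟨V, hV, hd⟩ := rep_diff γ
    exact (hd.continuousOn.mono (hK.trans hV)).domRestrict⟩
  map_add' γ₁ γ₂ := by
    ext z
    exact (rep_add γ₁ γ₂ (hK z.2)).eq_of_nhds
  map_smul' c γ := by
    ext z
    exact (rep_smul c γ (hK z.2)).eq_of_nhds

lemma resK_apply (K : Set ℂ) (hK : K ⊆ E) (γ : OGerm E) (z : K) : resK K hK γ z = rep γ z := rfl

lemma continuous_resK {K : Set ℂ} (hK : K ⊆ E) (hKc : IsCompact K) :
    Continuous (resK K hK) := by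
  have : CompactSpace K := isCompact_iff_compactSpace.1 hKc
  refine continuous_of_comp _ fun V hV => ?_
  let ι : C(K, V) := ⟨fun z => ⟨z, hV (hK z.2)⟩, by fun_prop⟩
  have h : (fun f : Hol V => resK K hK (toGerm V hV f)) = fun f : Hol V => (f : C(V, ℂ)).comp ι := by
    funext f
    ext z
    rw [resK_apply, (rep_toGerm V hV f (hK z.2)).eq_of_nhds, ext0_of_mem _ (hV (hK z.2))]
    rfl
  rw [h]
  exact (ContinuousMap.continuous_precomp ι).comp continuous_subtype_val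

/-- Continuous linear maps on `Hol V` with values in germs, evaluated on compact sets. -/
lemma bound_compact {V : Opens ℂ} {S : Hol V →ₗ[ℂ] OGerm E} (hS : Continuous S) {K' : Set ℂ}
    (hK' : K' ⊆ E) (hKc : IsCompact K') :
    ∃ K : Set ℂ, IsCompact K ∧ K ⊆ V ∧ ∃ C : ℝ, 0 < C ∧ ∀ (f : Hol V) (m : ℝ), 0 < m →
      (∀ z ∈ K, ‖ext0 V (f : C(V, ℂ)) z‖ ≤ m) → ∀ z ∈ K', ‖rep (S f) z‖ ≤ C * m := by
  have : CompactSpace K' := isCompact_iff_compactSpace.1 hKc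
  have h1 : Continuous fun f : Hol V => resK K' hK' (S f) := (continuous_resK hK' hKc).comp hS
  have h2 : (fun f : Hol V => resK K' hK' (S f)) ⁻¹' ball 0 1 ∈ 𝓝 (0 : Hol V) := by
    apply h1.continuousAt.preimage_mem_nhds
    rw [map_zero, map_zero]
    exact ball_mem_nhds _ one_pos
  obtain ⟨K, hK, hKV, ε, hε, h⟩ := nhds_zero_Hol h2
  refine ⟨K, hK, hKV, ε⁻¹, by positivity, fun f m hm hf z hz => ?_⟩
  have h3 := h (((ε / m : ℝ) : ℂ) • f) (fun w hw => by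
    rw [ext0_of_mem _ (hKV hw)]
    have h4 := hf w hw
    rw [ext0_of_mem _ (hKV hw)] at h4
    have h5 : ((((ε / m : ℝ) : ℂ) • f : Hol V) : C(V, ℂ)) ⟨w, hKV hw⟩ =
      ((ε / m : ℝ) : ℂ) * (f : C(V, ℂ)) ⟨w, hKV hw⟩ := rfl
    rw [h5, norm_mul, Complex.norm_real, Real.norm_of_nonneg (by positivity)]
    calc ε / m * ‖(f : C(V, ℂ)) ⟨w, hKV hw⟩‖ ≤ ε / m * m := by gcongr
      _ = ε := by field_simp)
  rw [mem_preimage, map_smul, map_smul, mem_ball_zero_iff, norm_smul, Complex.norm_real,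
    Real.norm_of_nonneg (by positivity)] at h3
  have h6 : ‖rep (S f) z‖ ≤ ‖resK K' hK' (S f)‖ :=
    (resK K' hK' (S f)).norm_coe_le_norm ⟨z, hz⟩
  have h7 : ‖resK K' hK' (S f)‖ < ε⁻¹ * m := by
    rw [div_mul_eq_mul_div, div_lt_one hm] at h3
    rw [inv_mul_eq_div, lt_div_iff₀ hε, mul_comm]
    exact h3
  exact (h6.trans_lt h7).le

/-! ### Taylor coefficients -/

lemma diffContOnCl_rep (γ : OGerm E) {c : ℂ} {s : ℝ} (h : closedBall c s ⊆ E) :
    DiffContOnCl ℂ (rep γ) (ball c s) := by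
  obtain ⟨V, hV, hd⟩ := rep_diff γ
  exact (hd.mono (h.trans hV)).diffContOnCl_ball subset_rfl

lemma norm_coef_le (γ : OGerm E) (n : ℕ) {c : ℂ} {s M : ℝ} (hs : 0 < s) (h : closedBall c s ⊆ E)
    (hM : ∀ z ∈ closedBall c s, ‖rep γ z‖ ≤ M) :
    ‖iteratedDeriv n (rep γ) c‖ ≤ n.factorial * M / s ^ n :=
  Complex.norm_iteratedDeriv_le_of_forall_mem_sphere_norm_le n hs (diffContOnCl_rep γ h)
    fun z hz => hM z (sphere_subset_closedBall hz)

lemma contDiffAt_rep (γ : OGerm E) {c : ℂ} (hc : c ∈ E) (n : ℕ) : ContDiffAt ℂ n (rep γ) c := by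
  obtain ⟨V, hV, hd⟩ := rep_diff γ
  exact ((hd.analyticAt (V.isOpen.mem_nhds (hV hc))).contDiffAt)

/-- the `n`-th derivative at a point -/
noncomputable def coef (n : ℕ) (c : ℂ) (hc : c ∈ E) : OGerm E →ₗ[ℂ] ℂ where
  toFun γ := iteratedDeriv n (rep γ) c
  map_add' γ₁ γ₂ := by
    rw [(rep_add γ₁ γ₂ hc).iteratedDeriv_eq n, iteratedDeriv_add (contDiffAt_rep γ₁ hc n)
      (contDiffAt_rep γ₂ hc n)]
  map_smul' a γ := by
    rw [(rep_smul a γ hc).iteratedDeriv_eq n]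
    exact iteratedDeriv_const_smul_field a (rep γ)

lemma continuous_coef (n : ℕ) (c : ℂ) (hc : c ∈ E) {s : ℝ} (hs : 0 < s) (h : closedBall c s ⊆ E) :
    Continuous (coef n c hc : OGerm E →ₗ[ℂ] ℂ) := by
  have : CompactSpace (closedBall c s) := isCompact_iff_compactSpace.1 (isCompact_closedBall c s)
  apply continuous_of_continuousAt_zero
  rw [ContinuousAt, map_zero]
  apply squeeze_zero_norm (a := fun γ : OGerm E => n.factorial * ‖resK _ h γ‖ / s ^ n)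
  · intro γ
    exact norm_coef_le γ n hs h fun z hz => (resK _ h γ).norm_coe_le_norm ⟨z, hz⟩
  · have h1 : Continuous fun γ : OGerm E => n.factorial * ‖resK _ h γ‖ / s ^ n :=
      (continuous_const.mul (continuous_resK h (isCompact_closedBall c s)).norm).div_const _
    have h2 := h1.tendsto 0
    rw [map_zero, norm_zero, mul_zero, zero_div] at h2
    exact h2

/-! ### The Baire argument -/

/-- the centres near the circle -/
noncomputable def ctr (δ : ℝ) (a : ℂ) : ℂ := ((1 - δ : ℝ) : ℂ) * a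

lemma dist_ctr {δ : ℝ} (hδ : 0 ≤ δ) {a : ℂ} (ha : ‖a‖ = 1) : dist (ctr δ a) a = δ := by
  have h : ctr δ a - a = -((δ : ℂ) * a) := by unfold ctr; push_cast; ring
  rw [dist_eq_norm, h, norm_neg, norm_mul, Complex.norm_real, Real.norm_of_nonneg hδ, ha, mul_one]

lemma norm_ctr {δ : ℝ} (hδ : δ ≤ 1) {a : ℂ} (ha : ‖a‖ = 1) : ‖ctr δ a‖ = 1 - δ := by
  unfold ctr
  rw [norm_mul, Complex.norm_real, Real.norm_of_nonneg (by linarith), ha, mul_one]

lemma closedBall_ctr {δ : ℝ} (hδ0 : 0 < δ) (hδ : δ ≤ 1) {a : ℂ} (ha : ‖a‖ = 1) :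
    closedBall (ctr δ a) (δ / 2) ⊆ ball (0 : ℂ) 1 := by
  intro z hz
  rw [mem_closedBall, dist_eq_norm] at hz
  rw [mem_ball_zero_iff]
  calc ‖z‖ = ‖(z - ctr δ a) + ctr δ a‖ := by rw [sub_add_cancel]
    _ ≤ ‖z - ctr δ a‖ + ‖ctr δ a‖ := norm_add_le _ _
    _ ≤ δ / 2 + (1 - δ) := by rw [norm_ctr hδ ha]; linarith
    _ < 1 := by linarith

/-- Uniform extension across `F`: a continuous linear map from `Hol V` to the germs on
`𝔻 ∪ F`, `F` a compact subset of the circle, has uniformly bounded Taylor coefficients. -/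
lemma baire {V : Opens ℂ} {F : Set ℂ} (hF : IsCompact F) (hF1 : ∀ a ∈ F, ‖a‖ = 1)
    {S : Hol V →ₗ[ℂ] OGerm (ball (0 : ℂ) 1 ∪ F)} (hS : Continuous S) :
    ∃ δ : ℝ, 0 < δ ∧ δ < 1 ∧ ∃ K : Set ℂ, IsCompact K ∧ K ⊆ V ∧ ∃ C : ℝ, 0 < C ∧
      ∀ (f : Hol V) (m : ℝ), 0 < m → (∀ z ∈ K, ‖ext0 V (f : C(V, ℂ)) z‖ ≤ m) →
        ∀ a ∈ F, ∀ n : ℕ, ‖iteratedDeriv n (rep (S f)) (ctr δ a)‖ ≤
          n.factorial * (C * m) / (2 * δ) ^ n := by
  set d : ℕ → ℝ := fun j => 1 / ((j : ℝ) + 2) with hd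
  have hd0 : ∀ j, 0 < d j := fun j => by simp only [hd]; positivity
  have hd1 : ∀ j, d j < 1 := fun j => by
    simp only [hd]
    rw [div_lt_one (by positivity)]
    have : (0 : ℝ) ≤ j := j.cast_nonneg
    linarith
  have hmem : ∀ j, ∀ a ∈ F, closedBall (ctr (d j) a) (d j / 2) ⊆ ball (0 : ℂ) 1 ∪ F :=
    fun j a ha => (closedBall_ctr (hd0 j) (hd1 j).le (hF1 a ha)).trans subset_union_left
  have hmem' : ∀ j, ∀ a ∈ F, ctr (d j) a ∈ ball (0 : ℂ) 1 ∪ F := fun j a ha =>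
    hmem j a ha (mem_closedBall_self (by have := hd0 j; positivity))
  let B : ℕ → Set (Hol V) := fun j => {f | ∀ a ∈ F, ∀ n : ℕ,
    ‖iteratedDeriv n (rep (S f)) (ctr (d j) a)‖ ≤ n.factorial * j / (2 * d j) ^ n}
  have hBcl : ∀ j, IsClosed (B j) := by
    intro j
    have : B j = ⋂ (a : ℂ) (_ : a ∈ F) (n : ℕ), {f : Hol V |
        ‖iteratedDeriv n (rep (S f)) (ctr (d j) a)‖ ≤ n.factorial * j / (2 * d j) ^ n} := by
      ext f
      simp only [mem_iInter]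
      rfl
    rw [this]
    refine isClosed_iInter fun a => isClosed_iInter fun ha => isClosed_iInter fun n => ?_
    refine isClosed_le (Continuous.norm ?_) continuous_const
    exact (continuous_coef n _ (hmem' j a ha) (by have := hd0 j; positivity) (hmem j a ha)).comp hS
  have hBun : ⋃ j, B j = univ := by
    rw [eq_univ_iff_forall]
    intro f
    rw [mem_iUnion]
    obtain ⟨W, hW, hg⟩ := rep_diff (S f)
    have hFW : F ⊆ W := subset_union_right.trans hW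
    obtain ⟨ε, hε, hεW⟩ := hF.exists_thickening_subset_open W.isOpen hFW
    have hcomp : IsCompact (cthickening (ε / 2) F) := hF.cthickening
    have hsub : cthickening (ε / 2) F ⊆ W :=
      (cthickening_subset_thickening' hε (by linarith) F).trans hεW
    obtain ⟨M, hM⟩ := (hcomp.image_of_continuousOn (hg.continuousOn.mono hsub).norm).bddAbove
    obtain ⟨j, hj⟩ := exists_nat_gt (max M (6 / ε))
    have hj1 : M < j := (le_max_left _ _).trans_lt hj
    have hj2 : 6 / ε < j := (le_max_right _ _).trans_lt hj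
    have hj3 : 3 * d j ≤ ε / 2 := by
      simp only [hd]
      rw [div_lt_iff₀ hε] at hj2
      rw [mul_one_div, div_le_div_iff₀ (by positivity) (by norm_num)]
      nlinarith
    refine ⟨j, fun a ha n => ?_⟩
    have hballs : closedBall (ctr (d j) a) (2 * d j) ⊆ cthickening (ε / 2) F := by
      intro z hz
      apply mem_cthickening_of_dist_le z a _ _ ha
      calc dist z a ≤ dist z (ctr (d j) a) + dist (ctr (d j) a) a := dist_triangle _ _ _
        _ ≤ 2 * d j + d j := add_le_add hz (dist_ctr (hd0 j).le (hF1 a ha)).le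
        _ ≤ ε / 2 := by linarith
    refine Complex.norm_iteratedDeriv_le_of_forall_mem_sphere_norm_le n
      (by have := hd0 j; positivity) ((hg.mono (hballs.trans hsub)).diffContOnCl_ball subset_rfl)
      fun z hz => ?_
    exact (hM ⟨z, hballs (sphere_subset_closedBall hz), rfl⟩).trans hj1.le
  obtain ⟨j, f₀, hf₀⟩ := nonempty_interior_of_iUnion_of_closed hBcl hBun
  have hU : (fun f => f₀ + f) ⁻¹' (B j) ∈ 𝓝 (0 : Hol V) := by
    have : ContinuousAdd (Hol V) := (Hol V).toAddSubmonoid.continuousAdd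
    have hc : Continuous fun f : Hol V => f₀ + f := continuous_const.add continuous_id
    apply hc.continuousAt.preimage_mem_nhds
    rw [add_zero]
    exact mem_interior_iff_mem_nhds.1 hf₀
  obtain ⟨K, hK, hKV, ε, hε, h⟩ := nhds_zero_Hol hU
  have hj0 : (0 : ℝ) ≤ j := j.cast_nonneg
  refine ⟨d j, hd0 j, hd1 j, K, hK, hKV, 2 * ((j : ℝ) + 1) * ε⁻¹, by positivity,
    fun f m hm hf a ha n => ?_⟩
  have h3 := h (((ε / m : ℝ) : ℂ) • f) (fun w hw => by
    rw [ext0_of_mem _ (hKV hw)]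
    have h4 := hf w hw
    rw [ext0_of_mem _ (hKV hw)] at h4
    have h5 : ((((ε / m : ℝ) : ℂ) • f : Hol V) : C(V, ℂ)) ⟨w, hKV hw⟩ =
      ((ε / m : ℝ) : ℂ) * (f : C(V, ℂ)) ⟨w, hKV hw⟩ := rfl
    rw [h5, norm_mul, Complex.norm_real, Real.norm_of_nonneg (by positivity)]
    calc ε / m * ‖(f : C(V, ℂ)) ⟨w, hKV hw⟩‖ ≤ ε / m * m := by gcongr
      _ = ε := by field_simp)
  have h6 := h3 a ha n
  have h7 := interior_subset hf₀ a ha n
  have hc := hmem' j a ha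
  have e1 : iteratedDeriv n (rep (S (f₀ + ((ε / m : ℝ) : ℂ) • f))) (ctr (d j) a) =
      iteratedDeriv n (rep (S f₀)) (ctr (d j) a) +
        ((ε / m : ℝ) : ℂ) * iteratedDeriv n (rep (S f)) (ctr (d j) a) := by
    have e2 : coef n _ hc (S (f₀ + ((ε / m : ℝ) : ℂ) • f)) =
        coef n _ hc (S f₀) + ((ε / m : ℝ) : ℂ) * coef n _ hc (S f) := by
      rw [map_add, map_add, map_smul, map_smul, smul_eq_mul]
    exact e2
  rw [e1] at h6
  have h8 : ‖((ε / m : ℝ) : ℂ) * iteratedDeriv n (rep (S f)) (ctr (d j) a)‖ ≤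
      2 * (n.factorial * j / (2 * d j) ^ n) := by
    have e3 : ((ε / m : ℝ) : ℂ) * iteratedDeriv n (rep (S f)) (ctr (d j) a) =
        (iteratedDeriv n (rep (S f₀)) (ctr (d j) a) +
        ((ε / m : ℝ) : ℂ) * iteratedDeriv n (rep (S f)) (ctr (d j) a)) -
        iteratedDeriv n (rep (S f₀)) (ctr (d j) a) := by ring
    rw [e3]
    refine (norm_sub_le _ _).trans ?_
    linarith
  rw [norm_mul, Complex.norm_real, Real.norm_of_nonneg (by positivity)] at h8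
  have hdj := hd0 j
  calc ‖iteratedDeriv n (rep (S f)) (ctr (d j) a)‖
      = m / ε * (ε / m * ‖iteratedDeriv n (rep (S f)) (ctr (d j) a)‖) := by field_simp
    _ ≤ m / ε * (2 * (n.factorial * j / (2 * d j) ^ n)) := by gcongr
    _ ≤ m / ε * (2 * (n.factorial * (j + 1) / (2 * d j) ^ n)) := by gcongr; linarith
    _ = n.factorial * (2 * ((j : ℝ) + 1) * ε⁻¹ * m) / (2 * d j) ^ n := by ring

end rep

end Pool.Agent.U555.GS
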