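import Mathlib

/-!
# Spaces of germs of holomorphic functions on arbitrary subsets of the plane

`Hol V` is the space `𝒪(V)` of all holomorphic functions on the open set `V ⊆ ℂ` with the
compact-open topology, `OGerm E` is the space `𝒪(E)` of germs on the arbitrary set `E ⊆ ℂ` of
functions holomorphic near `E`, with the topology of the inductive limit, in the category of
locally convex spaces, of the spaces `𝒪(V)`, `V ⊇ E` open.
-/

set_option autoImplicit false

open Set Topology Filter Metric TopologicalSpace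

namespace Pool.Agent.U555.GS

/-- `𝒪(V)`: the holomorphic functions on the open set `V`, a linear subspace of `C(V, ℂ)`.  It
carries the compact-open topology, i.e. the topology of uniform convergence on compact subsets
of `V`. -/
def Hol (V : Opens ℂ) : Submodule ℂ C(V, ℂ) where
  carrier := {f | ∃ g : ℂ → ℂ, DifferentiableOn ℂ g V ∧ ∀ z : V, f z = g z}
  add_mem' := by
    rintro f₁ f₂ ⟨g₁, h₁, e₁⟩ ⟨g₂, h₂, e₂⟩
    exact ⟨g₁ + g₂, h₁.add h₂, fun z => by simp [e₁ z, e₂ z]⟩
  zero_mem' := ⟨0, differentiableOn_const 0, fun z => rfl⟩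
  smul_mem' := by
    rintro c f ⟨g, h, e⟩
    exact ⟨c • g, h.const_smul c, fun z => by simp [e z]⟩

/-- The germs on `E` of the functions which are holomorphic near `E`, as a linear subspace of the
space of germs of all functions `ℂ → ℂ` along the filter of neighbourhoods of the set `E`. -/
def germSpace (E : Set ℂ) : Submodule ℂ (Germ (𝓝ˢ E) ℂ) where
  carrier := {γ | ∃ (V : Opens ℂ) (g : ℂ → ℂ), E ⊆ V ∧ DifferentiableOn ℂ g V ∧ γ = ↑g}
  add_mem' := by
    rintro _ _ ⟨V₁, g₁, hV₁, h₁, rfl⟩ ⟨V₂, g₂, hV₂, h₂, rfl⟩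
    exact ⟨V₁ ⊓ V₂, g₁ + g₂, subset_inter hV₁ hV₂,
      (h₁.mono inter_subset_left).add (h₂.mono inter_subset_right), rfl⟩
  zero_mem' := ⟨⊤, 0, fun _ _ => trivial, differentiableOn_const 0, rfl⟩
  smul_mem' := by
    rintro c _ ⟨V, g, hV, h, rfl⟩
    exact ⟨V, c • g, hV, h.const_smul c, rfl⟩

/-- `𝒪(E)`: the space of germs on `E` of functions holomorphic near `E`. -/
def OGerm (E : Set ℂ) : Type := germSpace E

noncomputable instance (E : Set ℂ) : AddCommGroup (OGerm E) :=
  inferInstanceAs (AddCommGroup (germSpace E))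

noncomputable instance (E : Set ℂ) : Module ℂ (OGerm E) :=
  inferInstanceAs (Module ℂ (germSpace E))

noncomputable instance (E : Set ℂ) : Module ℝ (OGerm E) :=
  Module.restrictScalars ℝ ℂ (OGerm E)

noncomputable instance (E : Set ℂ) : IsScalarTower ℝ ℂ (OGerm E) :=
  IsScalarTower.restrictScalars ℝ ℂ (OGerm E)

/-- extension by zero of a function on `V` -/
noncomputable def ext0 (V : Opens ℂ) (f : V → ℂ) (z : ℂ) : ℂ :=
  open Classical in if h : z ∈ V then f ⟨z, h⟩ else 0

lemma ext0_of_mem {V : Opens ℂ} (f : V → ℂ) {z : ℂ} (h : z ∈ V) : ext0 V f z = f ⟨z, h⟩ := by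
  unfold ext0; rw [dif_pos h]

lemma ext0_eqOn {V : Opens ℂ} {f : V → ℂ} {g : ℂ → ℂ} (e : ∀ z : V, f z = g z) :
    EqOn (ext0 V f) g V := fun z hz => by rw [ext0_of_mem f hz, e]

lemma ext0_differentiableOn {V : Opens ℂ} (f : Hol V) :
    DifferentiableOn ℂ (ext0 V (f : C(V, ℂ))) V := by
  obtain ⟨g, hg, e⟩ := f.2
  exact hg.congr (ext0_eqOn e)

/-- The canonical map `𝒪(V) → 𝒪(E)`, `E ⊆ V`: the germ along `E` of a function holomorphic
on `V`. -/
noncomputable def toGerm {E : Set ℂ} (V : Opens ℂ) (hV : E ⊆ V) : Hol V →ₗ[ℂ] OGerm E where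
  toFun f := ⟨(ext0 V (f : C(V, ℂ)) : Germ (𝓝ˢ E) ℂ), V, _, hV, ext0_differentiableOn f, rfl⟩
  map_add' f₁ f₂ := by
    refine Subtype.ext (Germ.coe_eq.2 ?_)
    filter_upwards [V.isOpen.mem_nhdsSet.2 hV] with z hz
    simp only [ext0_of_mem _ hz]
    rfl
  map_smul' c f := by
    refine Subtype.ext (Germ.coe_eq.2 ?_)
    filter_upwards [V.isOpen.mem_nhdsSet.2 hV] with z hz
    have e : ((fun x => (RingHom.id ℂ) c • x) ∘ ext0 V (f : C(V, ℂ))) z =
      c * ext0 V (f : C(V, ℂ)) z := rfl
    rw [e, ext0_of_mem _ hz, ext0_of_mem _ hz]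
    rfl

/-- The topology of `𝒪(E)`: the finest locally convex (vector space) topology for which all the
canonical maps `𝒪(V) → 𝒪(E)`, `V ⊇ E` open, are continuous, that is, the topology of the
inductive limit in the category of locally convex spaces.  (In Mathlib's order of topologies the
finest one is the infimum; the infimum itself is locally convex and makes the canonical maps
continuous, see below.) -/
noncomputable instance (E : Set ℂ) : TopologicalSpace (OGerm E) :=
  sInf {t : TopologicalSpace (OGerm E) |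
    (∀ (V : Opens ℂ) (hV : E ⊆ V), Continuous[inferInstance, t] (toGerm V hV)) ∧
    @IsTopologicalAddGroup (OGerm E) t _ ∧ @ContinuousSMul ℂ (OGerm E) _ _ t ∧
    @LocallyConvexSpace ℝ (OGerm E) _ _ _ _ t}

instance (E : Set ℂ) : IsTopologicalAddGroup (OGerm E) :=
  topologicalAddGroup_sInf fun _ h => h.2.1

instance (E : Set ℂ) : ContinuousSMul ℂ (OGerm E) :=
  continuousSMul_sInf fun _ h => h.2.2.1

instance (E : Set ℂ) : LocallyConvexSpace ℝ (OGerm E) :=
  .sInf fun _ h => h.2.2.2

/-- The canonical maps are continuous. -/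
lemma continuous_toGerm {E : Set ℂ} (V : Opens ℂ) (hV : E ⊆ V) : Continuous (toGerm V hV) :=
  continuous_sInf_rng.2 fun _ h => h.1 V hV

/-- Universal property of the inductive limit: a linear map from `𝒪(E)` to a locally convex
space is continuous if its compositions with all canonical maps are. -/
lemma continuous_of_comp {E : Set ℂ} {F : Type*} [AddCommGroup F] [Module ℂ F] [Module ℝ F]
    [IsScalarTower ℝ ℂ F] [TopologicalSpace F] [IsTopologicalAddGroup F] [ContinuousSMul ℂ F]
    [LocallyConvexSpace ℝ F] (A : OGerm E →ₗ[ℂ] F)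
    (h : ∀ (V : Opens ℂ) (hV : E ⊆ V), Continuous fun f => A (toGerm V hV f)) :
    Continuous A := by
  rw [continuous_iff_le_induced]
  refine sInf_le ⟨fun V hV => continuous_induced_rng.2 (h V hV), topologicalAddGroup_induced A,
    continuousSMul_induced A, ?_⟩
  exact LocallyConvexSpace.induced (A.restrictScalars ℝ)

end Pool.Agent.U555.GS
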