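import Pool.Agent.U555.GS.Basic

set_option autoImplicit false

open Set Topology Filter Metric TopologicalSpace

namespace Pool.Agent.U555.GS

/-! ### Power series estimates -/

lemma sum_bound {A : ℕ → ℂ} {z c w : ℂ} {M R : ℝ} {m : ℕ} (hR : 0 < R)
    (hA : ∀ n, ‖A n‖ ≤ n.factorial * M / R ^ n) (h0 : ∀ n < m, A n = 0) (hz : ‖z - c‖ < R)
    (hs : HasSum (fun n : ℕ => ((n.factorial : ℂ))⁻¹ • (z - c) ^ n • A n) w) :
    ‖w‖ ≤ M * (‖z - c‖ / R) ^ m / (1 - ‖z - c‖ / R) := by
  set q := ‖z - c‖ / R with hq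
  have hq0 : 0 ≤ q := by positivity
  have hq1 : q < 1 := (div_lt_one hR).2 hz
  have hM : 0 ≤ M := by
    have := (norm_nonneg _).trans (hA 0)
    simpa using this
  set b : ℕ → ℝ := fun n => if n < m then 0 else M * q ^ n with hb
  have hbs : HasSum b (M * q ^ m / (1 - q)) := by
    have h1 : HasSum (fun n => b (n + m)) (M * q ^ m / (1 - q)) := by
      have h2 := (hasSum_geometric_of_lt_one hq0 hq1).mul_left (M * q ^ m)
      have e : (fun n => b (n + m)) = fun n => M * q ^ m * q ^ n := by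
        funext n
        simp only [hb]
        rw [if_neg (by omega), pow_add]; ring
      rw [e, div_eq_mul_inv]
      exact h2
    have h3 := (hasSum_nat_add_iff m).1 h1
    have h4 : ∑ i ∈ Finset.range m, b i = 0 := Finset.sum_eq_zero fun i hi => by
      simp only [hb]
      rw [if_pos (Finset.mem_range.1 hi)]
    rw [h4, add_zero] at h3
    exact h3
  refine hs.norm_le_of_bounded hbs fun n => ?_
  simp only [hb]
  split_ifs with hn
  · rw [h0 n hn]; simp
  · rw [norm_smul, norm_smul, norm_inv, norm_pow, Complex.norm_natCast]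
    have hf : (0 : ℝ) < n.factorial := by positivity
    calc (n.factorial : ℝ)⁻¹ * (‖z - c‖ ^ n * ‖A n‖)
        ≤ (n.factorial : ℝ)⁻¹ * (‖z - c‖ ^ n * (n.factorial * M / R ^ n)) := by
          gcongr; exact hA n
      _ = M * q ^ n := by rw [hq, div_pow]; field_simp

lemma ball_bound {g : ℂ → ℂ} {c z : ℂ} {M R R' : ℝ} {m : ℕ} (hR : 0 < R)
    (hg : DifferentiableOn ℂ g (ball c R'))
    (hA : ∀ n, ‖iteratedDeriv n g c‖ ≤ n.factorial * M / R ^ n)
    (h0 : ∀ n < m, iteratedDeriv n g c = 0) (hz : ‖z - c‖ < R) (hz' : z ∈ ball c R') :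
    ‖g z‖ ≤ M * (‖z - c‖ / R) ^ m / (1 - ‖z - c‖ / R) :=
  sum_bound hR hA h0 hz (Complex.hasSum_taylorSeries_on_ball hg hz')

/-- Schwarz lemma of higher order. -/
lemma schwarz {g : ℂ → ℂ} {c z : ℂ} {M R : ℝ} {m : ℕ} (hR : 0 < R)
    (hg : DifferentiableOn ℂ g (ball c R)) (hM : ∀ z ∈ ball c R, ‖g z‖ ≤ M)
    (h0 : ∀ n < m, iteratedDeriv n g c = 0) (hz : ‖z - c‖ < R) :
    ‖g z‖ ≤ M * (‖z - c‖ / R) ^ m / (1 - ‖z - c‖ / R) := by
  have hzb : z ∈ ball c R := by rwa [mem_ball, dist_eq_norm]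
  refine ball_bound hR hg (fun n => ?_) h0 hz hzb
  -- Cauchy estimates on smaller balls
  have key : ∀ s ∈ Ioo 0 R, ‖iteratedDeriv n g c‖ ≤ n.factorial * M / s ^ n := fun s hs =>
    Complex.norm_iteratedDeriv_le_of_forall_mem_sphere_norm_le n hs.1
      ((hg.mono (closedBall_subset_ball hs.2)).diffContOnCl_ball subset_rfl)
      fun w hw => hM w (closedBall_subset_ball hs.2 (sphere_subset_closedBall hw))
  have hcont : ContinuousAt (fun s : ℝ => n.factorial * M / s ^ n) R := by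
    apply ContinuousAt.div continuousAt_const (continuousAt_id.pow n)
    exact pow_ne_zero _ hR.ne'
  refine ge_of_tendsto (hcont.tendsto.mono_left (nhdsWithin_le_nhds (s := Iio R))) ?_
  filter_upwards [Ioo_mem_nhdsLT hR] with s hs using key s hs

/-- A power series with bounded coefficients. -/
lemma exists_sum {A : ℕ → ℂ} {c : ℂ} {M R : ℝ} (hR : 0 < R)
    (hA : ∀ n, ‖A n‖ ≤ n.factorial * M / R ^ n) :
    ∃ h : ℂ → ℂ, DifferentiableOn ℂ h (ball c R) ∧ ∀ z ∈ ball c R,
      HasSum (fun n : ℕ => ((n.factorial : ℂ))⁻¹ • (z - c) ^ n • A n) (h z) := by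
  have hM : 0 ≤ M := by
    have := (norm_nonneg _).trans (hA 0)
    simpa using this
  have hterm : ∀ (n : ℕ) (s : ℝ) (z : ℂ), ‖z - c‖ ≤ s →
      ‖((n.factorial : ℂ))⁻¹ • (z - c) ^ n • A n‖ ≤ M * (s / R) ^ n := by
    intro n s z hz
    rw [norm_smul, norm_smul, norm_inv, norm_pow, Complex.norm_natCast]
    have hf : (0 : ℝ) < n.factorial := by positivity
    calc (n.factorial : ℝ)⁻¹ * (‖z - c‖ ^ n * ‖A n‖)
        ≤ (n.factorial : ℝ)⁻¹ * (s ^ n * (n.factorial * M / R ^ n)) := by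
          have hs : 0 ≤ s := (norm_nonneg _).trans hz
          gcongr
          exact hA n
      _ = M * (s / R) ^ n := by rw [div_pow]; field_simp
  have hsum : ∀ s : ℝ, 0 ≤ s → s < R → Summable fun n => M * (s / R) ^ n := fun s hs hsR =>
    (summable_geometric_of_lt_one (by positivity) ((div_lt_one hR).2 hsR)).mul_left M
  refine ⟨fun z => ∑' n : ℕ, ((n.factorial : ℂ))⁻¹ • (z - c) ^ n • A n, ?_, fun z hz => ?_⟩
  · intro z hz
    rw [mem_ball, dist_eq_norm] at hz
    set s := (‖z - c‖ + R) / 2 with hs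
    have hs1 : ‖z - c‖ < s := by linarith
    have hs2 : s < R := by linarith
    have hs0 : 0 ≤ s := by linarith [norm_nonneg (z - c)]
    have hd := Complex.differentiableOn_tsum_of_summable_norm (U := ball c s)
      (F := fun (n : ℕ) (z : ℂ) => ((n.factorial : ℂ))⁻¹ • (z - c) ^ n • A n) (hsum s hs0 hs2)
      (fun n => by fun_prop) isOpen_ball (fun n w hw => hterm n s w (by
        rw [mem_ball, dist_eq_norm] at hw
        exact hw.le))
    have hzs : z ∈ ball c s := by rwa [mem_ball, dist_eq_norm]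
    exact (hd.differentiableAt (isOpen_ball.mem_nhds hzs)).differentiableWithinAt
  · rw [mem_ball, dist_eq_norm] at hz
    exact (Summable.of_norm_bounded (hsum ‖z - c‖ (norm_nonneg _) hz)
      (fun n => hterm n _ z le_rfl)).hasSum

/-- Bound near a point of the circle. -/
lemma bound_near {A : ℕ → ℂ} {a z w : ℂ} (ha : ‖a‖ = 1) {δ M : ℝ} (hδ : 0 < δ)
    (hA : ∀ n : ℕ, ‖A n‖ ≤ n.factorial * M / (2 * δ) ^ n) (hz : dist z a < δ / 2)
    (hs : HasSum (fun n : ℕ => ((n.factorial : ℂ))⁻¹ • (z - ctr δ a) ^ n • A n) w) :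
    ‖w‖ ≤ 4 * M := by
  have hM : 0 ≤ M := by
    have := (norm_nonneg _).trans (hA 0)
    simpa using this
  have hcdist : dist (ctr δ a) a = δ := dist_ctr hδ.le ha
  have hz3 : ‖z - ctr δ a‖ ≤ 3 / 2 * δ := by
    rw [← dist_eq_norm]
    calc dist z (ctr δ a) ≤ dist z a + dist a (ctr δ a) := dist_triangle _ _ _
      _ ≤ δ / 2 + δ := by rw [dist_comm a, hcdist]; linarith
      _ = 3 / 2 * δ := by ring
  have h1 := sum_bound (m := 0) (by positivity) hA (fun n hn => absurd hn (Nat.not_lt_zero n))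
    (by linarith) hs
  rw [pow_zero, mul_one] at h1
  refine h1.trans ?_
  have hq : ‖z - ctr δ a‖ / (2 * δ) ≤ 3 / 4 := by
    rw [div_le_iff₀ (by positivity)]
    linarith
  rw [div_le_iff₀ (by linarith)]
  nlinarith

/-- Extension of germs on `𝔻 ∪ {1}` with bounded Taylor coefficients. -/
lemma extend (γ : OGerm (ball (0 : ℂ) 1 ∪ {1})) {δ M : ℝ} (hδ : 0 < δ) (hδ1 : δ < 1)
    (hA : ∀ n : ℕ, ‖iteratedDeriv n (rep γ) (ctr δ 1)‖ ≤ n.factorial * M / (2 * δ) ^ n) :
    ∃ G : ℂ → ℂ, DifferentiableOn ℂ G (ball 0 1 ∪ ball 1 (δ / 2)) ∧ toG γ = ↑G ∧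
      ∀ z ∈ ball (1 : ℂ) (δ / 2), HasSum (fun n : ℕ => ((n.factorial : ℂ))⁻¹ •
        (z - ctr δ 1) ^ n • iteratedDeriv n (rep γ) (ctr δ 1)) (G z) := by
  classical
  set c := ctr δ 1 with hc
  obtain ⟨V, hV, hg⟩ := rep_diff γ
  obtain ⟨h, hh, hsum⟩ := exists_sum (c := c) (R := 2 * δ) (by positivity) hA
  have hM : 0 ≤ M := by
    have := (norm_nonneg _).trans (hA 0)
    simpa using this
  have hcnorm : ‖c‖ = 1 - δ := norm_ctr hδ1.le norm_one
  have hcdist : dist c 1 = δ := dist_ctr hδ.le norm_one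
  have hcb : ball c δ ⊆ ball (0 : ℂ) 1 := by
    intro z hz
    rw [mem_ball, dist_eq_norm] at hz
    rw [mem_ball_zero_iff]
    calc ‖z‖ = ‖(z - c) + c‖ := by rw [sub_add_cancel]
      _ ≤ ‖z - c‖ + ‖c‖ := norm_add_le _ _
      _ < δ + (1 - δ) := by rw [hcnorm]; linarith
      _ = 1 := by ring
  have hDV : ball (0 : ℂ) 1 ⊆ V := subset_union_left.trans hV
  -- the two functions agree on `𝔻 ∩ ball c (2 δ)`
  have heq1 : EqOn (rep γ) h (ball c δ) := by
    intro z hz
    have h1 := Complex.hasSum_taylorSeries_on_ball (hg.mono (hcb.trans hDV)) hz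
    exact h1.unique (hsum z (ball_subset_ball (by linarith) hz))
  have hcD : c ∈ ball (0 : ℂ) 1 := hcb (mem_ball_self hδ)
  have heq2 : EqOn (rep γ) h (ball 0 1 ∩ ball c (2 * δ)) := by
    have h1 : AnalyticOnNhd ℂ (rep γ) (ball 0 1 ∩ ball c (2 * δ)) :=
      (hg.mono (inter_subset_left.trans hDV)).analyticOnNhd (isOpen_ball.inter isOpen_ball)
    have h2 : AnalyticOnNhd ℂ h (ball 0 1 ∩ ball c (2 * δ)) :=
      (hh.mono inter_subset_right).analyticOnNhd (isOpen_ball.inter isOpen_ball)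
    have h3 : IsPreconnected (ball (0 : ℂ) 1 ∩ ball c (2 * δ)) :=
      ((convex_ball (0 : ℂ) 1).inter (convex_ball c (2 * δ))).isPreconnected
    exact h1.eqOn_of_preconnected_of_eventuallyEq h2 h3 (z₀ := c)
      ⟨hcD, mem_ball_self (by positivity)⟩ (heq1.eventuallyEq_of_mem (ball_mem_nhds c hδ))
  set G : ℂ → ℂ := fun z => if z ∈ ball (0 : ℂ) 1 then rep γ z else h z with hG
  have hGD : EqOn G (rep γ) (ball 0 1) := fun z hz => by simp only [hG]; rw [if_pos hz]
  have hGh : EqOn G h (ball c (2 * δ)) := fun z hz => by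
    simp only [hG]
    split_ifs with hz1
    · exact heq2 ⟨hz1, hz⟩
    · rfl
  have hsub : ball (1 : ℂ) (δ / 2) ⊆ ball c (2 * δ) := by
    intro z hz
    rw [mem_ball] at hz ⊢
    calc dist z c ≤ dist z 1 + dist 1 c := dist_triangle _ _ _
      _ < δ / 2 + δ := by rw [dist_comm 1 c, hcdist]; linarith
      _ < 2 * δ := by linarith
  refine ⟨G, ?_, ?_, fun z hz => ?_⟩
  · rintro z (hz | hz)
    · have h1 : DifferentiableAt ℂ (rep γ) z :=
        hg.differentiableAt (V.isOpen.mem_nhds (hDV hz))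
      exact (h1.congr_of_eventuallyEq
        (hGD.eventuallyEq_of_mem (isOpen_ball.mem_nhds hz))).differentiableWithinAt
    · have h1 : DifferentiableAt ℂ h z :=
        hh.differentiableAt (isOpen_ball.mem_nhds (hsub hz))
      exact (h1.congr_of_eventuallyEq
        (hGh.eventuallyEq_of_mem (isOpen_ball.mem_nhds (hsub hz)))).differentiableWithinAt
  · rw [toG_eq_rep γ, Germ.coe_eq]
    have h1V : (1 : ℂ) ∈ V := hV (Or.inr rfl)
    have hopen : (V : Set ℂ) ∩ ball c (2 * δ) ∈ 𝓝 (1 : ℂ) :=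
      inter_mem (V.isOpen.mem_nhds h1V) (isOpen_ball.mem_nhds (hsub (mem_ball_self (by positivity))))
    obtain ⟨ε, hε, hεs⟩ := Metric.mem_nhds_iff.1 hopen
    have heq3 : EqOn (rep γ) h (ball 1 ε) := by
      set ε' := min ε 1 with hε'
      have hε'0 : 0 < ε' := lt_min hε one_pos
      set w : ℂ := ((1 - ε' / 2 : ℝ) : ℂ) with hw
      have hw1 : w ∈ ball (1 : ℂ) ε := by
        rw [mem_ball, dist_eq_norm, hw]
        have : ((1 - ε' / 2 : ℝ) : ℂ) - 1 = ((-(ε' / 2) : ℝ) : ℂ) := by push_cast; ring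
        rw [this, Complex.norm_real, norm_neg, Real.norm_of_nonneg (by positivity)]
        have := min_le_left ε 1
        linarith
      have hw2 : w ∈ ball (0 : ℂ) 1 := by
        rw [mem_ball_zero_iff, hw, Complex.norm_real]
        have := min_le_right ε 1
        rw [Real.norm_of_nonneg (by linarith)]
        linarith
      have h1 : AnalyticOnNhd ℂ (rep γ) (ball 1 ε) :=
        (hg.mono (hεs.trans inter_subset_left)).analyticOnNhd isOpen_ball
      have h2 : AnalyticOnNhd ℂ h (ball 1 ε) :=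
        (hh.mono (hεs.trans inter_subset_right)).analyticOnNhd isOpen_ball
      have h3 : IsPreconnected (ball (1 : ℂ) ε) := (convex_ball (1 : ℂ) ε).isPreconnected
      exact h1.eqOn_of_preconnected_of_eventuallyEq h2 h3 hw1
        (heq2.eventuallyEq_of_mem ((isOpen_ball.inter isOpen_ball).mem_nhds ⟨hw2, (hεs hw1).2⟩))
    have hnhds : ball (0 : ℂ) 1 ∪ ball 1 ε ∈ 𝓝ˢ (ball (0 : ℂ) 1 ∪ {1}) := by
      rw [(isOpen_ball.union isOpen_ball).mem_nhdsSet]
      exact union_subset_union_right _ (singleton_subset_iff.2 (mem_ball_self hε))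
    filter_upwards [hnhds] with z hz
    rcases hz with hz | hz
    · exact (hGD hz).symm
    · rw [heq3 hz, hGh (hεs hz).2]
  · rw [hGh (hsub hz)]
    exact hsum z (hsub hz)

end Pool.Agent.U555.GS
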