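import Pool.Agent.U555.GS.Ext

set_option autoImplicit false

open Set Topology Filter Metric TopologicalSpace

namespace Pool.Agent.U555.GS

/-! ### Polynomials -/

lemma iteratedDeriv_eval (p : Polynomial ℂ) (n : ℕ) :
    iteratedDeriv n (fun w => p.eval w) = fun w => (Polynomial.derivative^[n] p).eval w := by
  induction n with
  | zero => simp
  | succ n ih =>
    rw [iteratedDeriv_succ, ih, Function.iterate_succ_apply']
    funext w
    exact Polynomial.deriv _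

lemma coeff_bound (p : Polynomial ℂ) {r μ : ℝ} (hr : 0 < r)
    (h : ∀ w ∈ closedBall (0 : ℂ) r, ‖p.eval w‖ ≤ μ) (k : ℕ) : ‖p.coeff k‖ ≤ μ / r ^ k := by
  have h1 := Complex.norm_iteratedDeriv_le_of_forall_mem_sphere_norm_le (f := fun w => p.eval w)
    (c := 0) k hr (p.differentiable.diffContOnCl) (fun z hz => h z (sphere_subset_closedBall hz))
  rw [iteratedDeriv_eval] at h1
  have h2 : (Polynomial.derivative^[k] p).eval 0 = k.factorial * p.coeff k := by
    rw [← Polynomial.coeff_zero_eq_eval_zero, Polynomial.coeff_iterate_derivative, zero_add,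
      Nat.descFactorial_self, nsmul_eq_mul]
  simp only [h2] at h1
  rw [norm_mul, Complex.norm_natCast, mul_div_assoc] at h1
  exact le_of_mul_le_mul_left h1 (by positivity)

lemma eval_bound (p : Polynomial ℂ) {d : ℕ} (hp : p.natDegree < d + 1) {r R μ : ℝ} (hr : 0 < r)
    (hR : r ≤ R) (h : ∀ w ∈ closedBall (0 : ℂ) r, ‖p.eval w‖ ≤ μ) {w : ℂ} (hw : ‖w‖ ≤ R) :
    ‖p.eval w‖ ≤ ((d : ℝ) + 1) * (R / r) ^ d * μ := by
  have hμ : 0 ≤ μ := (norm_nonneg _).trans (h 0 (mem_closedBall_self hr.le))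
  have hRr : 1 ≤ R / r := (one_le_div hr).2 hR
  rw [Polynomial.eval_eq_sum_range' hp]
  calc ‖∑ i ∈ Finset.range (d + 1), p.coeff i * w ^ i‖
      ≤ ∑ i ∈ Finset.range (d + 1), (R / r) ^ d * μ := by
        refine norm_sum_le_of_le _ fun i hi => ?_
        have hi' : i ≤ d := by have := Finset.mem_range.1 hi; omega
        rw [norm_mul, norm_pow]
        calc ‖p.coeff i‖ * ‖w‖ ^ i ≤ (μ / r ^ i) * R ^ i := by
              gcongr
              exact coeff_bound p hr h i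
          _ = (R / r) ^ i * μ := by rw [div_pow]; ring
          _ ≤ (R / r) ^ d * μ := by
              gcongr
    _ = ((d : ℝ) + 1) * (R / r) ^ d * μ := by
        rw [Finset.sum_const, Finset.card_range, nsmul_eq_mul]; push_cast; ring

/-! ### The family of entire functions -/

/-- the function `exp (N c̄ z) p (z - x₀)` -/
noncomputable def fam (N : ℝ) (c x₀ : ℂ) (p : Polynomial ℂ) (z : ℂ) : ℂ :=
  Complex.exp (N * ((starRingEnd ℂ) c * z)) * p.eval (z - x₀)

lemma differentiable_fam (N : ℝ) (c x₀ : ℂ) (p : Polynomial ℂ) :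
    Differentiable ℂ (fam N c x₀ p) := by
  unfold fam
  have h1 : Differentiable ℂ fun z : ℂ => p.eval (z - x₀) :=
    p.differentiable.comp (differentiable_id.sub_const x₀)
  have h2 : Differentiable ℂ fun z : ℂ => Complex.exp (N * ((starRingEnd ℂ) c * z)) := by fun_prop
  exact h2.mul h1

lemma norm_exp_fam (N : ℝ) (c z : ℂ) :
    ‖Complex.exp (N * ((starRingEnd ℂ) c * z))‖ = Real.exp (N * ((starRingEnd ℂ) c * z).re) := by
  rw [Complex.norm_exp, Complex.re_ofReal_mul]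

lemma norm_fam (N : ℝ) (c x₀ : ℂ) (p : Polynomial ℂ) (z : ℂ) :
    ‖fam N c x₀ p z‖ = Real.exp (N * ((starRingEnd ℂ) c * z).re) * ‖p.eval (z - x₀)‖ := by
  unfold fam
  rw [norm_mul, norm_exp_fam]

lemma re_lower {c z : ℂ} (hc : ‖c‖ = 1) {r : ℝ}
    (hz : z ∈ closedBall (((1 - 2 * r : ℝ) : ℂ) * c) r) :
    1 - 3 * r ≤ ((starRingEnd ℂ) c * z).re := by
  have h1 : (starRingEnd ℂ) c * z = ((1 - 2 * r : ℝ) : ℂ) +
      (starRingEnd ℂ) c * (z - ((1 - 2 * r : ℝ) : ℂ) * c) := by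
    have h2 : (starRingEnd ℂ) c * c = 1 := by
      rw [mul_comm, Complex.mul_conj, Complex.normSq_eq_norm_sq, hc]; simp
    calc (starRingEnd ℂ) c * z = ((1 - 2 * r : ℝ) : ℂ) * ((starRingEnd ℂ) c * c) +
          (starRingEnd ℂ) c * (z - ((1 - 2 * r : ℝ) : ℂ) * c) := by ring
      _ = _ := by rw [h2, mul_one]
  rw [h1, Complex.add_re, Complex.ofReal_re]
  have h3 : |((starRingEnd ℂ) c * (z - ((1 - 2 * r : ℝ) : ℂ) * c)).re| ≤ r := by
    refine (Complex.abs_re_le_norm _).trans ?_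
    rw [norm_mul, Complex.norm_conj, hc, one_mul, ← dist_eq_norm]
    exact hz
  have := (abs_le.1 h3).1
  linarith

lemma fam_bound {N : ℝ} (hN : 0 ≤ N) {c : ℂ} (hc : ‖c‖ = 1) {r R μ : ℝ} (hr : 0 < r) (hR : r ≤ R)
    {d : ℕ} (p : Polynomial ℂ) (hp : p.natDegree < d + 1)
    (h : ∀ z ∈ closedBall (((1 - 2 * r : ℝ) : ℂ) * c) r,
      ‖fam N c (((1 - 2 * r : ℝ) : ℂ) * c) p z‖ ≤ μ)
    {z : ℂ} (hz : ‖z - ((1 - 2 * r : ℝ) : ℂ) * c‖ ≤ R) :
    ‖fam N c (((1 - 2 * r : ℝ) : ℂ) * c) p z‖ ≤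
      Real.exp (N * (((starRingEnd ℂ) c * z).re - (1 - 3 * r))) *
        (((d : ℝ) + 1) * (R / r) ^ d) * μ := by
  set x₀ := ((1 - 2 * r : ℝ) : ℂ) * c with hx₀
  have h1 : ∀ w ∈ closedBall (0 : ℂ) r, ‖p.eval w‖ ≤ μ * Real.exp (-(N * (1 - 3 * r))) := by
    intro w hw
    have hw' : x₀ + w ∈ closedBall x₀ r := by
      rw [mem_closedBall, dist_eq_norm, add_sub_cancel_left]
      rwa [mem_closedBall_zero_iff] at hw
    have h2 := h _ hw'
    rw [norm_fam, add_sub_cancel_left] at h2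
    have h3 := re_lower hc hw'
    have h4 : Real.exp (N * (1 - 3 * r)) ≤ Real.exp (N * ((starRingEnd ℂ) c * (x₀ + w)).re) :=
      Real.exp_le_exp.2 (mul_le_mul_of_nonneg_left h3 hN)
    have h5 : Real.exp (N * (1 - 3 * r)) * ‖p.eval w‖ ≤ μ :=
      (mul_le_mul_of_nonneg_right h4 (norm_nonneg _)).trans h2
    rw [Real.exp_neg, ← div_eq_mul_inv, le_div_iff₀ (Real.exp_pos _), mul_comm]
    exact h5
  have h6 := eval_bound p hp hr hR h1 hz
  rw [norm_fam]
  calc Real.exp (N * ((starRingEnd ℂ) c * z).re) * ‖p.eval (z - x₀)‖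
      ≤ Real.exp (N * ((starRingEnd ℂ) c * z).re) *
        (((d : ℝ) + 1) * (R / r) ^ d * (μ * Real.exp (-(N * (1 - 3 * r))))) := by gcongr
    _ = _ := by
      have e : N * (((starRingEnd ℂ) c * z).re - (1 - 3 * r)) =
        N * ((starRingEnd ℂ) c * z).re + -(N * (1 - 3 * r)) := by ring
      rw [e, Real.exp_add]; ring

end Pool.Agent.U555.GS
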