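import Pool.Agent.U555.GS.Fam

set_option autoImplicit false

open Set Topology Filter Metric TopologicalSpace

namespace Pool.Agent.U555.GS

/-- a holomorphic function on `V` as an element of `Hol V` -/
noncomputable def ofFun (V : Opens ℂ) (g : ℂ → ℂ) (hg : DifferentiableOn ℂ g V) : Hol V :=
  ⟨⟨fun z => g z, hg.continuousOn.domRestrict⟩, g, hg, fun _ => rfl⟩

lemma ext0_ofFun (V : Opens ℂ) (g : ℂ → ℂ) (hg : DifferentiableOn ℂ g V) {z : ℂ} (hz : z ∈ V) :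
    ext0 V (ofFun V g hg : C(V, ℂ)) z = g z := by
  rw [ext0_of_mem _ hz]
  rfl

lemma toG_ofFun {E : Set ℂ} (V : Opens ℂ) (hV : E ⊆ V) (g : ℂ → ℂ) (hg : DifferentiableOn ℂ g V) :
    toG (toGerm V hV (ofFun V g hg)) = ↑g := by
  rw [toG_toGerm, Germ.coe_eq]
  filter_upwards [V.isOpen.mem_nhdsSet.2 hV] with z hz
  exact ext0_ofFun V g hg hz

/-- the polynomial with given coefficients -/
noncomputable def poly (d : ℕ) (a : Fin (d + 1) → ℂ) : Polynomial ℂ :=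
  ((Polynomial.degreeLTEquiv ℂ (d + 1)).symm a : Polynomial ℂ)

lemma poly_natDegree (d : ℕ) (a : Fin (d + 1) → ℂ) : (poly d a).natDegree < d + 1 := by
  have h := ((Polynomial.degreeLTEquiv ℂ (d + 1)).symm a).2
  rw [Polynomial.mem_degreeLT] at h
  rcases eq_or_ne (poly d a) 0 with h0 | h0
  · rw [h0]; simp
  · exact (Polynomial.natDegree_lt_iff_degree_lt h0).2 h

lemma poly_ne_zero {d : ℕ} {a : Fin (d + 1) → ℂ} (ha : a ≠ 0) : poly d a ≠ 0 := by
  intro h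
  apply ha
  have h1 : (Polynomial.degreeLTEquiv ℂ (d + 1)).symm a = 0 := Subtype.ext h
  exact (LinearEquiv.map_eq_zero_iff _).1 h1

/-- the family as a linear map -/
noncomputable def famL (N : ℝ) (c x₀ : ℂ) (d : ℕ) : (Fin (d + 1) → ℂ) →ₗ[ℂ] Hol ⊤ where
  toFun a := ofFun ⊤ (fam N c x₀ (poly d a)) (differentiable_fam N c x₀ _).differentiableOn
  map_add' a b := by
    apply Subtype.ext
    ext z
    show fam N c x₀ (poly d (a + b)) z = fam N c x₀ (poly d a) z + fam N c x₀ (poly d b) z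
    unfold fam poly
    rw [map_add, Submodule.coe_add, Polynomial.eval_add]
    ring
  map_smul' r a := by
    apply Subtype.ext
    ext z
    show fam N c x₀ (poly d (r • a)) z = r * fam N c x₀ (poly d a) z
    unfold fam poly
    rw [map_smul, Submodule.coe_smul, Polynomial.eval_smul, smul_eq_mul]
    ring

theorem exists_small {A B q₁ q₂ L : ℝ} (hq₁ : 0 ≤ q₁) (hq₁' : q₁ < 1) (hq₂ : 0 ≤ q₂)
    (hqL : L ^ 2 * q₂ ≤ 1 / 2) :
    ∃ D : ℕ, A * q₁ ^ D < 1 ∧ B * (L ^ (2 * D) * q₂ ^ D) < 1 := by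
  have h1 : Tendsto (fun D : ℕ => A * q₁ ^ D) atTop (𝓝 (A * 0)) :=
    (tendsto_pow_atTop_nhds_zero_of_lt_one hq₁ hq₁').const_mul A
  have h2 : Tendsto (fun D : ℕ => B * (L ^ (2 * D) * q₂ ^ D)) atTop (𝓝 (B * 0)) := by
    have h3 : Tendsto (fun D : ℕ => (L ^ 2 * q₂) ^ D) atTop (𝓝 0) :=
      tendsto_pow_atTop_nhds_zero_of_lt_one (by positivity) (by linarith)
    have e : (fun D : ℕ => B * (L ^ (2 * D) * q₂ ^ D)) = fun D : ℕ => B * (L ^ 2 * q₂) ^ D := by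
      funext D
      rw [mul_pow, pow_mul]
    rw [e]
    exact h3.const_mul B
  rw [mul_zero] at h1 h2
  obtain ⟨D, hD⟩ := ((h1.eventually_lt_const one_pos).and (h2.eventually_lt_const one_pos)).exists
  exact ⟨D, hD⟩

lemma re_upper {c u : ℂ} (hc : ‖c‖ = 1) (hu : ‖u‖ = 1) {η : ℝ} (hη : 0 ≤ η) (h : η ≤ dist u c) :
    ((starRingEnd ℂ) c * u).re ≤ 1 - η ^ 2 / 2 := by
  have h1 : dist u c ^ 2 = 2 - 2 * ((starRingEnd ℂ) c * u).re := by
    rw [dist_eq_norm, ← Complex.normSq_eq_norm_sq, Complex.normSq_sub,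
      Complex.normSq_eq_norm_sq, Complex.normSq_eq_norm_sq, hc, hu, mul_comm u]
    ring
  have h2 : η ^ 2 ≤ dist u c ^ 2 := pow_le_pow_left₀ hη h 2
  linarith

lemma succ_le_two_pow (d : ℕ) : (d : ℝ) + 1 ≤ 2 ^ d := by
  have h : d + 1 ≤ 2 ^ d := Nat.lt_two_pow_self
  exact_mod_cast h

open Real in
theorem main {F : Set ℂ} (hF : IsCompact F) (hF1 : ∀ a ∈ F, ‖a‖ = 1) {c : ℂ} (hc : ‖c‖ = 1)
    {η : ℝ} (hη : 0 < η) (hη1 : η ≤ 1) (hint : ∀ u : ℂ, ‖u‖ = 1 → dist u c < η → u ∈ F)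
    (T : OGerm (ball (0 : ℂ) 1 ∪ F) ≃L[ℂ] OGerm (ball (0 : ℂ) 1 ∪ {1})) : False := by
  -- constants depending on `F`
  set r : ℝ := η ^ 2 / 12 with hr
  have hr0 : 0 < r := by positivity
  have hr1 : r ≤ 1 / 12 := by
    have : η ^ 2 ≤ 1 := pow_le_one₀ hη.le hη1
    rw [hr]; linarith
  set x₀ : ℂ := ((1 - 2 * r : ℝ) : ℂ) * c with hx₀
  have hx₀n : ‖x₀‖ = 1 - 2 * r := by
    rw [hx₀, norm_mul, Complex.norm_real, Real.norm_of_nonneg (by linarith), hc, mul_one]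
  set m₀ : ℝ := 4 * log (4 / r) / η ^ 2 with hm₀
  have hlog : 0 < log (4 / r) := log_pos (by rw [lt_div_iff₀ hr0]; linarith)
  have hm₀0 : 0 < m₀ := by positivity
  have hexp : exp (-(m₀ * (η ^ 2 / 4))) = r / 4 := by
    have : m₀ * (η ^ 2 / 4) = log (4 / r) := by rw [hm₀]; field_simp
    rw [this, ← log_inv, inv_div, exp_log (by positivity)]
  -- Step 1
  have hEtop : ball (0 : ℂ) 1 ∪ F ⊆ (⊤ : Opens ℂ) := fun _ _ => trivial
  set S₁ : Hol ⊤ →ₗ[ℂ] OGerm (ball (0 : ℂ) 1 ∪ {1}) :=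
    (T : OGerm (ball (0 : ℂ) 1 ∪ F) →ₗ[ℂ] OGerm (ball (0 : ℂ) 1 ∪ {1})).comp (toGerm ⊤ hEtop)
    with hS₁
  have hS₁c : Continuous S₁ := T.continuous.comp (continuous_toGerm ⊤ hEtop)
  obtain ⟨δ₁, hδ₁, hδ₁1, K₁, hK₁, -, C₁, hC₁, hB₁⟩ := baire isCompact_singleton
    (fun a ha => by rw [mem_singleton_iff.1 ha]; exact norm_one) hS₁c
  obtain ⟨R₁', hR₁'⟩ := hK₁.isBounded.subset_closedBall 0
  set R₁ := max R₁' 2 with hR₁
  have hR₁2 : 2 ≤ R₁ := le_max_right _ _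
  have hK₁R : ∀ z ∈ K₁, ‖z‖ ≤ R₁ := fun z hz =>
    (mem_closedBall_zero_iff.1 (hR₁' hz)).trans (le_max_left _ _)
  set L : ℝ := exp (m₀ * R₁) * (2 * ((R₁ + 1) / r)) with hL
  have hL0 : 0 < L := by positivity
  -- the small radius
  set q₂ : ℝ := min (1 / 2) (1 / (2 * L ^ 2)) with hq₂
  have hq₂0 : 0 < q₂ := by positivity
  have hq₂1 : q₂ ≤ 1 / 2 := min_le_left _ _
  have hq₂L : L ^ 2 * q₂ ≤ 1 / 2 := by
    calc L ^ 2 * q₂ ≤ L ^ 2 * (1 / (2 * L ^ 2)) := by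
          gcongr; exact min_le_right _ _
      _ = 1 / 2 := by field_simp
  set r₂ : ℝ := q₂ * (δ₁ / 2) with hr₂
  have hr₂0 : 0 < r₂ := by positivity
  have hr₂1 : r₂ ≤ δ₁ / 2 := by rw [hr₂]; nlinarith
  -- Step 2
  let W : Opens ℂ := ⟨ball 0 1 ∪ ball 1 r₂, isOpen_ball.union isOpen_ball⟩
  have hEW : ball (0 : ℂ) 1 ∪ {1} ⊆ W :=
    union_subset_union_right _ (singleton_subset_iff.2 (mem_ball_self hr₂0))
  set S₂ : Hol W →ₗ[ℂ] OGerm (ball (0 : ℂ) 1 ∪ F) :=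
    (T.symm : OGerm (ball (0 : ℂ) 1 ∪ {1}) →ₗ[ℂ] OGerm (ball (0 : ℂ) 1 ∪ F)).comp (toGerm W hEW)
    with hS₂
  have hS₂c : Continuous S₂ := T.symm.continuous.comp (continuous_toGerm W hEW)
  obtain ⟨δ₂, hδ₂, hδ₂1, K₂, hK₂, hK₂W, C₂, hC₂, hB₂⟩ := baire hF hF1 hS₂c
  set ρ : ℝ := max (1 - δ₂ / 8) (1 - r) with hρ
  have hρ1 : ρ < 1 := max_lt (by linarith) (by linarith)
  have hρδ : 1 - ρ ≤ δ₂ / 8 := by have := le_max_left (1 - δ₂ / 8) (1 - r); linarith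
  have hρr : 1 - r ≤ ρ := le_max_right _ _
  have hρD : closedBall (0 : ℂ) ρ ⊆ ball (0 : ℂ) 1 ∪ F :=
    (closedBall_subset_ball hρ1).trans subset_union_left
  obtain ⟨K₂', hK₂', hK₂'W, C₂', hC₂', hB₂'⟩ := bound_compact hS₂c hρD (isCompact_closedBall 0 ρ)
  set K : Set ℂ := K₂ ∪ K₂' ∪ {0} with hK
  have hKc : IsCompact K := (hK₂.union hK₂').union isCompact_singleton
  have hKW : K ⊆ W := union_subset (union_subset hK₂W hK₂'W)
    (singleton_subset_iff.2 (Or.inl (mem_ball_self one_pos)))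
  obtain ⟨s₁, hs₁, hKs₁⟩ := exists_pos_lt_subset_ball (x := (0 : ℂ)) (r := 1) (s := K \ ball 1 r₂)
    one_pos (hKc.diff isOpen_ball).isClosed (fun z hz => (hKW hz.1).resolve_right hz.2)
  -- Step 3
  set s₂ : ℝ := (1 + s₁) / 2 with hs₂
  have hs₂1 : s₂ < 1 := by rw [hs₂]; linarith [hs₁.2]
  have hs₁₂ : s₁ < s₂ := by rw [hs₂]; linarith [hs₁.2]
  have hs₂0 : 0 < s₂ := hs₁.1.trans hs₁₂
  let V : Opens ℂ := ⟨ball 0 1 ∪ thickening (δ₂ / 2) F, isOpen_ball.union isOpen_thickening⟩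
  have hEV : ball (0 : ℂ) 1 ∪ F ⊆ V :=
    union_subset_union_right _ (self_subset_thickening (by positivity) F)
  set S₃ : Hol V →ₗ[ℂ] OGerm (ball (0 : ℂ) 1 ∪ {1}) :=
    (T : OGerm (ball (0 : ℂ) 1 ∪ F) →ₗ[ℂ] OGerm (ball (0 : ℂ) 1 ∪ {1})).comp (toGerm V hEV)
    with hS₃
  have hS₃c : Continuous S₃ := T.continuous.comp (continuous_toGerm V hEV)
  have hs₂D : closedBall (0 : ℂ) s₂ ⊆ ball (0 : ℂ) 1 ∪ {1} :=
    (closedBall_subset_ball hs₂1).trans subset_union_left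
  obtain ⟨K₃, hK₃, hK₃V, C₃, hC₃, hB₃⟩ := bound_compact hS₃c hs₂D (isCompact_closedBall 0 s₂)
  -- the choice of the dimension
  set q₁ : ℝ := s₁ / s₂ with hq₁
  have hq₁0 : 0 ≤ q₁ := div_nonneg hs₁.1.le hs₂0.le
  have hq₁1 : q₁ < 1 := (div_lt_one hs₂0).2 hs₁₂
  set Cp : ℝ := max C₂' (4 * C₂) with hCp
  have hCp0 : 0 < Cp := lt_max_of_lt_left hC₂'
  obtain ⟨D, hD1, hD2⟩ := exists_small (A := C₃ * Cp / (1 - q₁))
    (B := 8 * (C₁ * C₂')) hq₁0 hq₁1 hq₂0.le hq₂L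
  -- the function
  set d : ℕ := 2 * D with hd
  set N : ℝ := m₀ * d with hN
  have hN0 : 0 ≤ N := by positivity
  have h0E : (0 : ℂ) ∈ ball (0 : ℂ) 1 ∪ ({1} : Set ℂ) := Or.inl (mem_ball_self one_pos)
  have h1E : (1 : ℂ) ∈ ball (0 : ℂ) 1 ∪ ({1} : Set ℂ) := Or.inr rfl
  let A : (Fin (d + 1) → ℂ) →ₗ[ℂ] OGerm (ball (0 : ℂ) 1 ∪ {1}) := S₁.comp (famL N c x₀ d)
  let Φ : (Fin (d + 1) → ℂ) →ₗ[ℂ] (Fin D → ℂ) × (Fin D → ℂ) :=
    LinearMap.prod (LinearMap.pi fun n => (coef n 0 h0E).comp A)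
      (LinearMap.pi fun n => (coef n 1 h1E).comp A)
  have hker : LinearMap.ker Φ ≠ ⊥ := by
    apply LinearMap.ker_ne_bot_of_finrank_lt
    rw [Module.finrank_prod, Module.finrank_fin_fun, Module.finrank_fin_fun]
    omega
  obtain ⟨a, haker, ha0⟩ := Submodule.exists_mem_ne_zero_of_ne_bot hker
  rw [LinearMap.mem_ker] at haker
  set γ := A a with hγ
  have hv0 : ∀ n < D, iteratedDeriv n (rep γ) 0 = 0 := fun n hn =>
    congrFun (congrArg Prod.fst haker) ⟨n, hn⟩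
  have hv1 : ∀ n < D, iteratedDeriv n (rep γ) 1 = 0 := fun n hn =>
    congrFun (congrArg Prod.snd haker) ⟨n, hn⟩
  set p := poly d a with hp
  have hp0 : p ≠ 0 := poly_ne_zero ha0
  have hpd : p.natDegree < d + 1 := poly_natDegree d a
  set f : ℂ → ℂ := fam N c x₀ p with hf
  have hfd : Differentiable ℂ f := differentiable_fam N c x₀ p
  have hfam : famL N c x₀ d a = ofFun ⊤ f hfd.differentiableOn := rfl
  have hγ' : γ = T (toGerm ⊤ hEtop (ofFun ⊤ f hfd.differentiableOn)) := rfl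
  -- bounds for the coefficients at `ctr δ₁ 1`
  have hcoef1 : ∀ m : ℝ, 0 < m → (∀ z : ℂ, ‖z‖ ≤ R₁ → ‖f z‖ ≤ m) → ∀ n : ℕ,
      ‖iteratedDeriv n (rep γ) (ctr δ₁ 1)‖ ≤ n.factorial * (C₁ * m) / (2 * δ₁) ^ n := by
    intro m hm hfm n
    exact hB₁ (ofFun ⊤ f hfd.differentiableOn) m hm (fun z hz => by
      rw [ext0_ofFun ⊤ f _ (show z ∈ (⊤ : Opens ℂ) from trivial)]
      exact hfm z (hK₁R z hz)) 1 rfl n
  obtain ⟨M₀, hM₀⟩ := ((isCompact_closedBall (0 : ℂ) R₁).image_of_continuousOn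
    (hfd.continuous.norm.continuousOn)).bddAbove
  have hM₀' : ∀ z : ℂ, ‖z‖ ≤ R₁ → ‖f z‖ ≤ max M₀ 1 := fun z hz =>
    (hM₀ ⟨z, mem_closedBall_zero_iff.2 hz, rfl⟩).trans (le_max_left _ _)
  obtain ⟨G, hGd, hγG, hGs⟩ := extend γ hδ₁ hδ₁1
    (hcoef1 (max M₀ 1) (lt_max_of_lt_right one_pos) hM₀')
  have hWsub : (W : Set ℂ) ⊆ ball 0 1 ∪ ball 1 (δ₁ / 2) :=
    union_subset_union_right _ (ball_subset_ball hr₂1)
  have hGW : DifferentiableOn ℂ G W := hGd.mono hWsub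
  -- `T⁻¹ G = f`
  have hinv : S₂ (ofFun W G hGW) = toGerm ⊤ hEtop (ofFun ⊤ f hfd.differentiableOn) := by
    have h1 : toGerm W hEW (ofFun W G hGW) = γ := toG_inj (by rw [toG_ofFun, hγG])
    have h2 : S₂ (ofFun W G hGW) = T.symm (toGerm W hEW (ofFun W G hGW)) := rfl
    rw [h2, h1, hγ', ContinuousLinearEquiv.symm_apply_apply]
  have hrepf : ∀ z ∈ ball (0 : ℂ) 1 ∪ F, rep (S₂ (ofFun W G hGW)) =ᶠ[𝓝 z] f := fun z hz => by
    rw [hinv]
    exact rep_eventuallyEq_nhds (toG_ofFun _ _ _ _) hz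
  -- the maximum of `|G|` on `K`
  obtain ⟨z₀, hz₀, hmax⟩ := hKc.exists_isMaxOn ⟨0, Or.inr rfl⟩ (hGW.continuousOn.mono hKW).norm
  set m := ‖G z₀‖ with hm
  have hmK : ∀ z ∈ K, ‖G z‖ ≤ m := fun z hz => hmax hz
  have hfρ : ∀ m', 0 < m' → m ≤ m' → ∀ z ∈ closedBall (0 : ℂ) ρ, ‖f z‖ ≤ C₂' * m' := by
    intro m' hm' hmm' z hz
    have h1 := hB₂' (ofFun W G hGW) m' hm' (fun w hw => by
      rw [ext0_ofFun W G _ (hK₂'W hw)]
      exact (hmK w (Or.inl (Or.inr hw))).trans hmm') z hz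
    rwa [(hrepf z (hρD hz)).eq_of_nhds] at h1
  have hx₀ρ : closedBall x₀ r ⊆ closedBall 0 ρ := by
    intro z hz
    rw [mem_closedBall, dist_eq_norm] at hz
    rw [mem_closedBall_zero_iff]
    calc ‖z‖ = ‖(z - x₀) + x₀‖ := by rw [sub_add_cancel]
      _ ≤ ‖z - x₀‖ + ‖x₀‖ := norm_add_le _ _
      _ ≤ r + (1 - 2 * r) := by rw [hx₀n]; linarith
      _ ≤ ρ := by linarith
  have hmpos : 0 < m := by
    by_contra hcon
    have hm0 : m = 0 := le_antisymm (not_lt.1 hcon) (norm_nonneg _)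
    have hz : ∀ z ∈ closedBall x₀ r, f z = 0 := fun z hz => by
      by_contra hne
      have hpos : 0 < ‖f z‖ := norm_pos_iff.2 hne
      have h1 := hfρ (‖f z‖ / (2 * C₂')) (by positivity) (by rw [hm0]; positivity) z (hx₀ρ hz)
      have h2 : C₂' * (‖f z‖ / (2 * C₂')) = ‖f z‖ / 2 := by field_simp
      rw [h2] at h1
      linarith
    apply hp0
    have h3 : ∀ w ∈ closedBall (0 : ℂ) r, ‖p.eval w‖ ≤ 0 := fun w hw => by
      have hw' : x₀ + w ∈ closedBall x₀ r := by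
        rw [mem_closedBall, dist_eq_norm, add_sub_cancel_left]
        rwa [mem_closedBall_zero_iff] at hw
      have h4 := hz (x₀ + w) hw'
      simp only [hf, fam, add_sub_cancel_left] at h4
      rcases mul_eq_zero.1 h4 with h5 | h5
      · exact absurd h5 (Complex.exp_ne_zero _)
      · rw [h5, norm_zero]
    ext k
    have h4 := coeff_bound p hr0 h3 k
    rw [zero_div] at h4
    simpa using h4
  have ha1 := hfρ m hmpos le_rfl
  have ha2 : ∀ a ∈ F, ∀ z, dist z a < δ₂ / 2 → ‖f z‖ ≤ 4 * (C₂ * m) := by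
    intro a ha z hz
    have hctr : ctr δ₂ a ∈ ball (0 : ℂ) 1 ∪ F :=
      Or.inl (closedBall_ctr hδ₂ hδ₂1.le (hF1 a ha) (mem_closedBall_self (by positivity)))
    have hcoef : ∀ n : ℕ, ‖iteratedDeriv n f (ctr δ₂ a)‖ ≤
        n.factorial * (C₂ * m) / (2 * δ₂) ^ n := by
      intro n
      have h1 := hB₂ (ofFun W G hGW) m hmpos (fun w hw => by
        rw [ext0_ofFun W G _ (hK₂W hw)]
        exact hmK w (Or.inl (Or.inl hw))) a ha n
      rwa [(hrepf _ hctr).iteratedDeriv_eq n] at h1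
    have hzb : z ∈ ball (ctr δ₂ a) (2 * δ₂) := by
      rw [mem_ball]
      calc dist z (ctr δ₂ a) ≤ dist z a + dist a (ctr δ₂ a) := dist_triangle _ _ _
        _ < δ₂ / 2 + δ₂ := by rw [dist_comm a, dist_ctr hδ₂.le (hF1 a ha)]; linarith
        _ < 2 * δ₂ := by linarith
    exact bound_near (hF1 a ha) hδ₂ hcoef hz
      (Complex.hasSum_taylorSeries_on_ball hfd.differentiableOn hzb)
  have hfx : ∀ z ∈ closedBall x₀ r, ‖f z‖ ≤ C₂' * m := fun z hz => ha1 z (hx₀ρ hz)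
  have hdpos : (0 : ℝ) < (d : ℝ) + 1 := by positivity
  have hd2 := succ_le_two_pow d
  -- bound on `K₃`
  have hb1 : ∀ z ∈ K₃, ‖f z‖ ≤ Cp * m := by
    intro z hz
    have hCpm1 : C₂' * m ≤ Cp * m := by gcongr; exact le_max_left _ _
    have hCpm2 : 4 * (C₂ * m) ≤ Cp * m := by
      rw [← mul_assoc]; gcongr; exact le_max_right _ _
    by_cases hzt : z ∈ thickening (δ₂ / 2) F
    · obtain ⟨a, ha, hza⟩ := mem_thickening_iff.1 hzt
      exact (ha2 a ha z hza).trans hCpm2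
    · have hzD : ‖z‖ < 1 := mem_ball_zero_iff.1 ((hK₃V hz).resolve_right hzt)
      by_cases hzρ : ‖z‖ ≤ ρ
      · exact (ha1 z (mem_closedBall_zero_iff.2 hzρ)).trans hCpm1
      · push Not at hzρ
        have hz0 : 0 < ‖z‖ := by
          have : 0 < ρ := by linarith
          linarith
        set u : ℂ := ((‖z‖⁻¹ : ℝ) : ℂ) * z with hu
        have hun : ‖u‖ = 1 := by
          rw [hu, norm_mul, Complex.norm_real, Real.norm_of_nonneg (by positivity)]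
          field_simp
        have hzu : z = ((‖z‖ : ℝ) : ℂ) * u := by
          rw [hu, ← mul_assoc, ← Complex.ofReal_mul, mul_inv_cancel₀ hz0.ne']
          simp
        have hdzu : dist z u = 1 - ‖z‖ := by
          have h1 : z - u = -(((1 - ‖z‖ : ℝ) : ℂ) * u) := by
            nth_rewrite 1 [hzu]
            push_cast; ring
          rw [dist_eq_norm, h1, norm_neg, norm_mul, hun, mul_one, Complex.norm_real,
            Real.norm_of_nonneg (by linarith)]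
        have huF : u ∉ F := fun huF => hzt (mem_thickening_iff.2 ⟨u, huF, by
          rw [hdzu]; linarith⟩)
        have huc : η ≤ dist u c := by
          by_contra hcon
          exact huF (hint u hun (not_le.1 hcon))
        have hre := re_upper hc hun hη.le huc
        have hη2 : η ^ 2 ≤ 1 := pow_le_one₀ hη.le hη1
        have hrez : ((starRingEnd ℂ) c * z).re ≤ 1 - η ^ 2 / 2 := by
          have e : ((starRingEnd ℂ) c * z).re = ‖z‖ * ((starRingEnd ℂ) c * u).re := by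
            nth_rewrite 1 [hzu]
            rw [mul_left_comm, Complex.re_ofReal_mul]
          rw [e]
          rcases le_or_gt 0 ((starRingEnd ℂ) c * u).re with h0 | h0
          · calc ‖z‖ * ((starRingEnd ℂ) c * u).re ≤ 1 * ((starRingEnd ℂ) c * u).re := by gcongr
              _ ≤ _ := by rw [one_mul]; exact hre
          · have : ‖z‖ * ((starRingEnd ℂ) c * u).re ≤ 0 :=
              mul_nonpos_of_nonneg_of_nonpos hz0.le h0.le
            linarith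
        have hzx : ‖z - x₀‖ ≤ 2 := by
          calc ‖z - x₀‖ ≤ ‖z‖ + ‖x₀‖ := norm_sub_le _ _
            _ ≤ 2 := by rw [hx₀n]; linarith
        have h1 := fam_bound hN0 hc hr0 (R := 2) (by linarith) p hpd hfx hzx
        refine h1.trans (le_trans ?_ hCpm1)
        have h2 : Real.exp (N * (((starRingEnd ℂ) c * z).re - (1 - 3 * r))) ≤ (r / 4) ^ d := by
          rw [← hexp, ← Real.exp_nat_mul]
          apply Real.exp_le_exp.2
          have h3 : ((starRingEnd ℂ) c * z).re - (1 - 3 * r) ≤ -(η ^ 2 / 4) := by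
            rw [hr]; linarith
          calc N * (((starRingEnd ℂ) c * z).re - (1 - 3 * r)) ≤ N * (-(η ^ 2 / 4)) := by gcongr
            _ = d * -(m₀ * (η ^ 2 / 4)) := by rw [hN]; ring
        have h4 : Real.exp (N * (((starRingEnd ℂ) c * z).re - (1 - 3 * r))) *
            (((d : ℝ) + 1) * (2 / r) ^ d) ≤ 1 := by
          calc _ ≤ (r / 4) ^ d * (2 ^ d * (2 / r) ^ d) := by gcongr
            _ = (r / 4 * (2 * (2 / r))) ^ d := by rw [mul_pow, mul_pow]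
            _ = 1 := by
              have : r / 4 * (2 * (2 / r)) = 1 := by field_simp; norm_num
              rw [this, one_pow]
        calc _ ≤ 1 * (C₂' * m) := by gcongr
          _ = _ := one_mul _
  -- bound on the large disc
  have hb2 : ∀ z : ℂ, ‖z‖ ≤ R₁ → ‖f z‖ ≤ L ^ d * (C₂' * m) := by
    intro z hz
    have hzx : ‖z - x₀‖ ≤ R₁ + 1 := by
      calc ‖z - x₀‖ ≤ ‖z‖ + ‖x₀‖ := norm_sub_le _ _
        _ ≤ R₁ + 1 := by rw [hx₀n]; linarith
    have h1 := fam_bound hN0 hc hr0 (R := R₁ + 1) (by linarith) p hpd hfx hzx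
    refine h1.trans ?_
    have h2 : Real.exp (N * (((starRingEnd ℂ) c * z).re - (1 - 3 * r))) ≤
        (Real.exp (m₀ * R₁)) ^ d := by
      rw [← Real.exp_nat_mul]
      apply Real.exp_le_exp.2
      have h3 : ((starRingEnd ℂ) c * z).re ≤ R₁ := by
        calc ((starRingEnd ℂ) c * z).re ≤ ‖(starRingEnd ℂ) c * z‖ := Complex.re_le_norm _
          _ = ‖z‖ := by rw [norm_mul, Complex.norm_conj, hc, one_mul]
          _ ≤ R₁ := hz
      calc N * (((starRingEnd ℂ) c * z).re - (1 - 3 * r)) ≤ N * R₁ := by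
            gcongr; linarith
        _ = d * (m₀ * R₁) := by rw [hN]; ring
    gcongr
    calc _ ≤ (Real.exp (m₀ * R₁)) ^ d * (2 ^ d * ((R₁ + 1) / r) ^ d) := by gcongr
      _ = L ^ d := by rw [hL, mul_pow, mul_pow]
  -- bounds for `γ` and `G`
  have hc1 : ∀ z ∈ closedBall (0 : ℂ) s₂, ‖rep γ z‖ ≤ C₃ * (Cp * m) := by
    have h1 : S₃ (ofFun V f hfd.differentiableOn) = γ := by
      have h2 : toGerm V hEV (ofFun V f hfd.differentiableOn) =
          toGerm ⊤ hEtop (ofFun ⊤ f hfd.differentiableOn) := toG_inj (by rw [toG_ofFun, toG_ofFun])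
      have h3 : S₃ (ofFun V f hfd.differentiableOn) =
        T (toGerm V hEV (ofFun V f hfd.differentiableOn)) := rfl
      rw [h3, h2, ← hγ']
    intro z hz
    have h4 := hB₃ (ofFun V f hfd.differentiableOn) (Cp * m) (by positivity) (fun w hw => by
      rw [ext0_ofFun V f _ (hK₃V hw)]
      exact hb1 w hw) z hz
    rwa [h1] at h4
  have hc2 : ∀ z ∈ ball (1 : ℂ) (δ₁ / 2), ‖G z‖ ≤ 4 * (C₁ * (L ^ d * (C₂' * m))) := by
    intro z hz
    exact bound_near norm_one hδ₁ (hcoef1 _ (by positivity) hb2) hz (hGs z hz)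
  -- conclusion
  by_cases hz₀1 : z₀ ∈ ball (1 : ℂ) r₂
  · have hG1 : ∀ n < D, iteratedDeriv n G 1 = 0 := fun n hn => by
      rw [← (rep_eventuallyEq_nhds hγG h1E).iteratedDeriv_eq n]
      exact hv1 n hn
    have hz₀n : ‖z₀ - 1‖ < r₂ := by rwa [mem_ball, dist_eq_norm] at hz₀1
    have h1 := schwarz (by positivity) (hGd.mono subset_union_right) hc2 hG1
      (hz₀n.trans_le hr₂1)
    set q := ‖z₀ - 1‖ / (δ₁ / 2) with hq
    have hq0 : 0 ≤ q := by positivity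
    have hqq : q ≤ q₂ := by
      rw [hq, div_le_iff₀ (by positivity)]
      exact hz₀n.le
    have h2 : 4 * (C₁ * (L ^ d * (C₂' * m))) * q ^ D / (1 - q) ≤
        8 * (C₁ * C₂') * (L ^ d * q₂ ^ D) * m := by
      rw [div_le_iff₀ (by linarith)]
      have h3 : q ^ D ≤ q₂ ^ D := pow_le_pow_left₀ hq0 hqq D
      have h4 : 1 / 2 ≤ 1 - q := by linarith
      calc 4 * (C₁ * (L ^ d * (C₂' * m))) * q ^ D
          ≤ 4 * (C₁ * (L ^ d * (C₂' * m))) * q₂ ^ D := by gcongr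
        _ = 8 * (C₁ * C₂') * (L ^ d * q₂ ^ D) * m * (1 / 2) := by ring
        _ ≤ _ := by gcongr
    have h5 : 8 * (C₁ * C₂') * (L ^ d * q₂ ^ D) * m < 1 * m := by gcongr
    linarith
  · have hz₀s : ‖z₀‖ < s₁ := mem_ball_zero_iff.1 (hKs₁ ⟨hz₀, hz₀1⟩)
    have hz₀D : z₀ ∈ ball (0 : ℂ) 1 ∪ ({1} : Set ℂ) :=
      Or.inl (mem_ball_zero_iff.2 (hz₀s.trans hs₁.2))
    have hGrep : G z₀ = rep γ z₀ := (rep_eq hγG hz₀D).symm
    have hdiff : DifferentiableOn ℂ (rep γ) (ball 0 s₂) := by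
      obtain ⟨V', hV', hd'⟩ := rep_diff γ
      exact hd'.mono (((ball_subset_closedBall).trans hs₂D).trans hV')
    have h1 := schwarz (z := z₀) hs₂0 hdiff (fun z hz => hc1 z (ball_subset_closedBall hz)) hv0
      (by rw [sub_zero]; linarith)
    rw [sub_zero, ← hGrep] at h1
    set q := ‖z₀‖ / s₂ with hq
    have hq0 : 0 ≤ q := by positivity
    have hqq : q ≤ q₁ := by
      rw [hq, hq₁]
      gcongr
    have h2 : C₃ * (Cp * m) * q ^ D / (1 - q) ≤ C₃ * Cp / (1 - q₁) * q₁ ^ D * m := by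
      have h3 : q ^ D ≤ q₁ ^ D := pow_le_pow_left₀ hq0 hqq D
      have h4 : 0 < 1 - q₁ := by linarith
      calc C₃ * (Cp * m) * q ^ D / (1 - q) ≤ C₃ * (Cp * m) * q₁ ^ D / (1 - q₁) := by gcongr
        _ = _ := by ring
    have h5 : C₃ * Cp / (1 - q₁) * q₁ ^ D * m < 1 * m := by gcongr
    linarith

end Pool.Agent.U555.GS
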